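import Pool.Agent.Run7.h408.EF.Stm3

/-!
# Piece StCp of project EF (helper408): two continuous metrics on a compact surface are comparable
-/

set_option autoImplicit false

open Set Filter Topology MeasureTheory
open Pool.Agent.Y262.QE

namespace Pool.Agent.Run7.h270.EF

open Pool.Agent.Run7.h408.EF

theorem inv_apply {A : ℂ →L[ℝ] ℂ} (h : A.det ≠ 0) (v : ℂ) : A.inverse (A v) = v := by
  have e1 : ((A.toContinuousLinearEquivOfDetNeZero h : ℂ ≃L[ℝ] ℂ) : ℂ →L[ℝ] ℂ) = A :=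
    ContinuousLinearMap.coe_toContinuousLinearEquivOfDetNeZero A h
  have e2 : A.inverse = ((A.toContinuousLinearEquivOfDetNeZero h).symm : ℂ →L[ℝ] ℂ) := by
    have := ContinuousLinearMap.inverse_equiv (A.toContinuousLinearEquivOfDetNeZero h)
    rw [e1] at this
    exact this
  have e3 : A v = (A.toContinuousLinearEquivOfDetNeZero h) v := rfl
  rw [e2, e3]
  exact ContinuousLinearEquiv.symm_apply_apply _ v

theorem inv_cont {A : ℂ →L[ℝ] ℂ} (h : A.det ≠ 0) :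
    ContinuousAt (ContinuousLinearMap.inverse : (ℂ →L[ℝ] ℂ) → (ℂ →L[ℝ] ℂ)) A := by
  have e1 : ((A.toContinuousLinearEquivOfDetNeZero h : ℂ ≃L[ℝ] ℂ) : ℂ →L[ℝ] ℂ) = A :=
    ContinuousLinearMap.coe_toContinuousLinearEquivOfDetNeZero A h
  have := (contDiffAt_map_inverse (𝕜 := ℝ) (n := 0) (A.toContinuousLinearEquivOfDetNeZero h)).continuousAt
  rwa [e1] at this

theorem one_side {M : Type} [MetricSpace M] [CompactSpace M] [MeasurableSpace M] [BorelSpace M]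
    (μ₀ μ₁ : Measure M) (D : Data M) (A₀ A₁ : Fin D.N → ℂ → ℂ →L[ℝ] ℂ) (h0 : (wth D A₀).IsSurf μ₀)
    (h1 : (wth D A₁).IsSurf μ₁) : ∃ L : ℝ, ∀ x ∈ (univ : Set M), ∀ i, x ∈ D.U i → ∀ v,
      ‖A₁ i (D.φ i x) v‖ ≤ L * ‖A₀ i (D.φ i x) v‖ := by
  apply isCompact_univ.induction_on (p := fun s : Set M => ∃ L : ℝ, ∀ x ∈ s, ∀ i, x ∈ D.U i → ∀ v,
      ‖A₁ i (D.φ i x) v‖ ≤ L * ‖A₀ i (D.φ i x) v‖)
  · exact ⟨0, fun x hx => absurd hx (notMem_empty x)⟩
  · rintro s t hst ⟨L, hL⟩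
    exact ⟨L, fun x hx => hL x (hst hx)⟩
  · rintro s t ⟨L, hL⟩ ⟨L', hL'⟩
    refine ⟨max L L', ?_⟩
    rintro x (hx | hx) i hi v
    · exact (hL x hx i hi v).trans (mul_le_mul_of_nonneg_right (le_max_left _ _) (norm_nonneg _))
    · exact (hL' x hx i hi v).trans (mul_le_mul_of_nonneg_right (le_max_right _ _) (norm_nonneg _))
  · intro x _
    obtain ⟨i, hi⟩ := h0.cover x
    have hT : IsOpen (D.T i) := h0.openT i
    have hz : D.φ i x ∈ D.T i := mem_image_of_mem _ hi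
    have hU : IsOpen (D.U i) := h0.openU i
    have hφ : ContinuousAt (D.φ i) x := (h0.contφ i).continuousAt (hU.mem_nhds hi)
    have c0 : ContinuousAt (A₀ i) (D.φ i x) := (h0.contA i).continuousAt (hT.mem_nhds hz)
    have c1 : ContinuousAt (A₁ i) (D.φ i x) := (h1.contA i).continuousAt (hT.mem_nhds hz)
    have hd : ∀ y ∈ D.U i, (A₀ i (D.φ i y)).det ≠ 0 := fun y hy => h0.det i _ (mem_image_of_mem _ hy)
    have c2 : ContinuousAt (fun y : M => ‖A₁ i (D.φ i y)‖ * ‖(A₀ i (D.φ i y)).inverse‖) x := by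
      have c3 : ContinuousAt (fun y : M => A₁ i (D.φ i y)) x :=
        ContinuousAt.comp (g := A₁ i) (f := D.φ i) c1 hφ
      have c4 : ContinuousAt (fun y : M => A₀ i (D.φ i y)) x :=
        ContinuousAt.comp (g := A₀ i) (f := D.φ i) c0 hφ
      have c5 : ContinuousAt (fun y : M => (A₀ i (D.φ i y)).inverse) x :=
        ContinuousAt.comp (g := ContinuousLinearMap.inverse) (f := fun y : M => A₀ i (D.φ i y))
          (inv_cont (hd x hi)) c4
      exact c3.norm.mul c5.norm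
    obtain ⟨L, hLdef⟩ : ∃ L : ℝ, L = ‖A₁ i (D.φ i x)‖ * ‖(A₀ i (D.φ i x)).inverse‖ + 1 := ⟨_, rfl⟩
    have h3 : ∀ᶠ y in 𝓝 x, ‖A₁ i (D.φ i y)‖ * ‖(A₀ i (D.φ i y)).inverse‖ < L :=
      c2.eventually_lt_const (by rw [hLdef]; linarith)
    have h4 : ∀ᶠ y in 𝓝 x, y ∈ D.U i := hU.mem_nhds hi
    refine ⟨{y | ‖A₁ i (D.φ i y)‖ * ‖(A₀ i (D.φ i y)).inverse‖ < L ∧ y ∈ D.U i}, ?_, L, ?_⟩
    · rw [nhdsWithin_univ]
      exact h3.and h4
    · rintro y ⟨hy1, hy2⟩ j hj v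
      have key : ∀ w, ‖A₁ i (D.φ i y) w‖ ≤ L * ‖A₀ i (D.φ i y) w‖ := by
        intro w
        calc ‖A₁ i (D.φ i y) w‖ = ‖A₁ i (D.φ i y) ((A₀ i (D.φ i y)).inverse (A₀ i (D.φ i y) w))‖ := by
              rw [inv_apply (hd y hy2)]
          _ ≤ ‖A₁ i (D.φ i y)‖ * (‖(A₀ i (D.φ i y)).inverse‖ * ‖A₀ i (D.φ i y) w‖) := by
              refine (ContinuousLinearMap.le_opNorm _ _).trans ?_
              exact mul_le_mul_of_nonneg_left (ContinuousLinearMap.le_opNorm _ _) (norm_nonneg _)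
          _ = (‖A₁ i (D.φ i y)‖ * ‖(A₀ i (D.φ i y)).inverse‖) * ‖A₀ i (D.φ i y) w‖ := by ring
          _ ≤ _ := mul_le_mul_of_nonneg_right hy1.le (norm_nonneg _)
      have e0 := (h0.tr j i y hj hy2).2 v
      have e1 := (h1.tr j i y hj hy2).2 v
      have e2 := key (fderiv ℝ (fun z => D.φ i (D.ψ j z)) (D.φ j y) v)
      have e0' : ‖A₀ i (D.φ i y) (fderiv ℝ (fun z => D.φ i (D.ψ j z)) (D.φ j y) v)‖ = ‖A₀ j (D.φ j y) v‖ := e0
      have e1' : ‖A₁ i (D.φ i y) (fderiv ℝ (fun z => D.φ i (D.ψ j z)) (D.φ j y) v)‖ = ‖A₁ j (D.φ j y) v‖ := e1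
      rw [e0', e1'] at e2
      exact e2

theorem t_StCp : StCp := by
  intro M _ _ _ _ μ₀ μ₁ D A₀ A₁ h0 h1
  obtain ⟨L, hL⟩ := one_side μ₀ μ₁ D A₀ A₁ h0 h1
  obtain ⟨L', hL'⟩ := one_side μ₁ μ₀ D A₁ A₀ h1 h0
  refine ⟨max (max L L') 1, lt_of_lt_of_le one_pos (le_max_right _ _), ?_⟩
  rintro i z ⟨x, hx, rfl⟩ v
  constructor
  · exact (hL x (mem_univ x) i hx v).trans (mul_le_mul_of_nonneg_right
      ((le_max_left _ _).trans (le_max_left _ _)) (norm_nonneg _))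
  · exact (hL' x (mem_univ x) i hx v).trans (mul_le_mul_of_nonneg_right
      ((le_max_right _ _).trans (le_max_left _ _)) (norm_nonneg _))

end Pool.Agent.Run7.h270.EF

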