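import Pool.Agent.Run7.h408.EF.Stm3

/-!
# Piece StMd of project EF (helper408): the derivative along a measurable flow is measurable
-/

set_option autoImplicit false

open Set Filter Topology MeasureTheory

namespace Pool.Agent.Run7.h270.EF

theorem diff_iff (g : ℝ → ℝ) (hg : Continuous g) : DifferentiableAt ℝ g 0 ↔
    ∃ c, Tendsto (fun r : ℚ => (r:ℝ)⁻¹ • (g (0 + (r:ℝ)) - g 0)) (comap ((↑) : ℚ → ℝ) (𝓝[≠] 0)) (𝓝 c) := by
  constructor
  · intro h
    refine ⟨deriv g 0, ?_⟩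
    have h1 := hasDerivAt_iff_tendsto_slope_zero.1 h.hasDerivAt
    exact h1.comp tendsto_comap
  · rintro ⟨c, hc⟩
    have h1 : Tendsto (fun t : ℝ => t⁻¹ • (g (0 + t) - g 0)) (𝓝[≠] 0) (𝓝 c) := by
      rw [Metric.tendsto_nhds] at hc ⊢
      intro ε hε
      have h2 := hc (ε / 2) (by positivity)
      rw [eventually_comap] at h2
      obtain ⟨O, hO, hO0, hO2⟩ := mem_nhdsWithin.1 h2
      have hO3 : O ∩ {0}ᶜ ∈ 𝓝[≠] (0:ℝ) := by
        rw [inter_comm]
        exact inter_mem_nhdsWithin _ (hO.mem_nhds hO0)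
      filter_upwards [hO3] with t ht
      have ht0 : t ≠ 0 := ht.2
      by_contra hcon
      push Not at hcon
      have hcont : ContinuousAt (fun t : ℝ => t⁻¹ • (g (0 + t) - g 0)) t := by
        apply ContinuousAt.smul (continuousAt_inv₀ ht0)
        fun_prop
      have h3 : ∀ᶠ s in 𝓝 t, ε / 2 < dist (s⁻¹ • (g (0 + s) - g 0)) c := by
        have h4 : ContinuousAt (fun s : ℝ => dist (s⁻¹ • (g (0 + s) - g 0)) c) t :=
          hcont.dist continuousAt_const
        exact h4.eventually_const_lt (by linarith)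
      have h5 : ∀ᶠ s in 𝓝 t, s ∈ O ∩ {0}ᶜ := (hO.inter isOpen_compl_singleton).mem_nhds ht
      obtain ⟨V, hV1, hV2, hV3⟩ := mem_nhds_iff.1 (h3.and h5)
      obtain ⟨r, hr⟩ := Rat.denseRange_cast (𝕜 := ℝ) |>.exists_mem_open hV2 ⟨t, hV3⟩
      obtain ⟨h6, h7⟩ := hV1 hr
      have h8 := hO2 h7 r rfl
      linarith
    exact (hasDerivAt_iff_tendsto_slope_zero.2 h1).differentiableAt

theorem t_StMd : Run7.h408.EF.StMd := by
  intro Ω _ θ h0 hθ F hF hc
  have hm : ∀ t : ℝ, Measurable fun o => t⁻¹ • (F (θ (0 + t) o) - F (θ 0 o)) := by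
    intro t
    simp only [smul_eq_mul]
    exact ((hF.comp (hθ _)).sub (hF.comp (hθ _))).const_mul _
  have hS : MeasurableSet {o | DifferentiableAt ℝ (fun t => F (θ t o)) 0} := by
    have h1 := MeasureTheory.measurableSet_exists_tendsto (l := comap ((↑) : ℚ → ℝ) (𝓝[≠] 0))
      (f := fun (r : ℚ) (o : Ω) => (r:ℝ)⁻¹ • (F (θ (0 + (r:ℝ)) o) - F (θ 0 o))) (fun r => hm r)
    have h2 : {o | DifferentiableAt ℝ (fun t => F (θ t o)) 0} = {o | ∃ c, Tendsto (fun r : ℚ =>
        (r:ℝ)⁻¹ • (F (θ (0 + (r:ℝ)) o) - F (θ 0 o))) (comap ((↑) : ℚ → ℝ) (𝓝[≠] 0)) (𝓝 c)} := by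
      ext o
      exact diff_iff (fun t => F (θ t o)) (hc o)
    rw [h2]
    exact h1
  refine ⟨hS, ?_⟩
  refine ⟨{o | DifferentiableAt ℝ (fun t => F (θ t o)) 0}.indicator
    (fun o => deriv (fun t => F (θ t o)) 0), ?_, ?_⟩
  · have hseq : Tendsto (fun n : ℕ => 1 / ((n:ℝ) + 1)) atTop (𝓝[≠] 0) := by
      apply tendsto_nhdsWithin_iff.2
      refine ⟨tendsto_one_div_add_atTop_nhds_zero_nat, Eventually.of_forall fun n => ?_⟩
      have : (0:ℝ) < 1 / ((n:ℝ) + 1) := by positivity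
      exact this.ne'
    apply measurable_of_tendsto_metrizable (f := fun (n : ℕ) =>
      {o | DifferentiableAt ℝ (fun t => F (θ t o)) 0}.indicator
      (fun o => (1 / ((n:ℝ) + 1))⁻¹ • (F (θ (0 + 1 / ((n:ℝ) + 1)) o) - F (θ 0 o))))
    · intro n
      exact (hm _).indicator hS
    · rw [tendsto_pi_nhds]
      intro o
      by_cases ho : o ∈ {o | DifferentiableAt ℝ (fun t => F (θ t o)) 0}
      · simp only [indicator_of_mem ho]
        have h1 := hasDerivAt_iff_tendsto_slope_zero.1 (DifferentiableAt.hasDerivAt ho)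
        exact h1.comp hseq
      · simp only [indicator_of_notMem ho]
        exact tendsto_const_nhds
  · intro o ho
    rw [indicator_of_mem (s := {o | DifferentiableAt ℝ (fun t => F (θ t o)) 0}) ho]

end Pool.Agent.Run7.h270.EF

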